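import Pool.Agent.W282.LF.Stm

/-!
# Algebraically independent quotients of coordinates
-/

set_option autoImplicit false

namespace Pool.Agent.W216.LF

open Pool.Agent.W282.LF

theorem tr : S_TR := by
  intro k _ _ N y j₀ _ σ _ z hz hzm
  classical
  set w : Fin (N + 1) → ℂ := fun j => y j / y j₀ with hw
  set M := AlgebraicIndependent.matroid k ℂ with hM
  obtain ⟨u, hu⟩ := M.exists_isBasis (Set.range w) (by rw [hM]; exact Set.subset_univ _)
  have hu1 := AlgebraicIndependent.matroid_isBasis_iff.1 hu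
  have hI : M.Indep (Set.range z) := hz.to_subtype_range
  have hus : M.IsBasis u (Set.range w ∪ Set.range z) := by
    rw [hM, AlgebraicIndependent.matroid_isBasis_iff]
    refine ⟨hu1.1, hu1.2.1.trans Set.subset_union_left, ?_⟩
    rintro a (ha | ha)
    · exact hu1.2.2 a ha
    · rw [AlgebraicIndependent.isAlgebraic_adjoin_iff_of_matroid_isBasis hu]
      obtain ⟨s, rfl⟩ := ha
      obtain ⟨r, hr, r', hr', he⟩ := IntermediateField.mem_adjoin_iff_div.1 (hzm s)
      rw [he, div_eq_mul_inv]
      exact (isAlgebraic_algebraMap (⟨r, hr⟩ : Algebra.adjoin k (Set.range w))).mul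
        (isAlgebraic_algebraMap (⟨r', hr'⟩ : Algebra.adjoin k (Set.range w))).inv
  have hcard : (Set.range z).encard ≤ u.encard := by
    rw [hus.encard_eq_eRk]
    exact hI.encard_le_eRk_of_subset Set.subset_union_right
  have hufin : u.Finite := (Set.finite_range w).subset hu1.2.1
  have hcard2 : Nat.card σ ≤ u.ncard := by
    have h1 : (Set.range z).ncard = Nat.card σ := by
      rw [← Set.image_univ, Set.ncard_image_of_injective _ hz.injective, Set.ncard_univ]
    rw [← h1]
    have h2 := hcard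
    rw [← (Set.finite_range z).cast_ncard_eq, ← hufin.cast_ncard_eq] at h2
    exact_mod_cast h2
  have hsub : ∀ a : ℂ, ∃ j, a ∈ u → w j = a := by
    intro a
    by_cases ha : a ∈ u
    · obtain ⟨j, hj⟩ := hu1.2.1 ha
      exact ⟨j, fun _ => hj⟩
    · exact ⟨j₀, fun h => absurd h ha⟩
  choose f hf' using hsub
  have hf : ∀ {a : ℂ}, a ∈ u → w (f a) = a := fun {a} ha => hf' a ha
  have hfi : ∀ a ∈ u, ∀ b ∈ u, f a = f b → a = b := by
    intro a ha b hb hab
    rw [← hf ha, ← hf hb, hab]
  obtain ⟨T, hT1, hT2⟩ := Finset.exists_subset_card_eq (s := hufin.toFinset) (n := Nat.card σ)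
    (by rw [← Set.ncard_eq_toFinset_card u hufin]; exact hcard2)
  have hTu : ∀ a ∈ T, a ∈ u := fun a ha => (Set.Finite.mem_toFinset hufin).1 (hT1 ha)
  refine ⟨T.image f, ?_, ?_⟩
  · rw [Finset.card_image_of_injOn, hT2]
    intro a ha b hb hab
    exact hfi a (hTu a ha) b (hTu b hb) hab
  · have h3 : ∀ j : {x // x ∈ T.image f}, ∃ a : u, f a = j ∧ (a : ℂ) = w j := by
      rintro ⟨j, hj⟩
      obtain ⟨a, ha, rfl⟩ := Finset.mem_image.1 hj
      exact ⟨⟨a, hTu a ha⟩, rfl, (hf (hTu a ha)).symm⟩
    choose g hg1 hg2 using h3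
    have hgi : Function.Injective g := by
      intro i j hij
      apply Subtype.ext
      rw [← hg1 i, ← hg1 j, hij]
    have h4 : AlgebraicIndependent k (fun x : u => (x : ℂ)) := hu1.1
    have h5 := h4.comp g hgi
    have h6 : ((fun x : u => (x : ℂ)) ∘ g) = fun j : {x // x ∈ T.image f} => w j := by
      funext j
      exact hg2 j
    rw [h6] at h5
    exact h5

end Pool.Agent.W216.LF
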