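import Pool.Agent.W282.LF.Stm

/-!
# No relations between points near the origin with complex multiplication
-/

set_option autoImplicit false
set_option linter.unusedSectionVars false

namespace Pool.Agent.W216.LF

open Pool.Agent.W282.LF Pool.Agent.W466.EP WeierstrassCurve WeierstrassCurve.Affine

section gen

variable {L : Type*} [Field L] {Γ₀ : Type*} [LinearOrderedCommGroupWithZero Γ₀]

/-- adding errors -/
theorem err_add {v : Valuation L Γ₀} {x y : L} {a b : Γ₀} (hx : v x * a ≤ b) (hy : v y * a ≤ b) :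
    v (x + y) * a ≤ b := by
  have h1 := v.map_add x y
  rcases le_max_iff.1 h1 with h | h
  · exact (mul_le_mul_left h a).trans hx
  · exact (mul_le_mul_left h a).trans hy

theorem err_neg {v : Valuation L Γ₀} {x : L} {a b : Γ₀} (hx : v x * a ≤ b) :
    v (-x) * a ≤ b := by
  rw [Valuation.map_neg]; exact hx

theorem err_mono {v : Valuation L Γ₀} {π : Γ₀} (hπ1 : π < 1) {x : L} {b : Γ₀} {m n : ℕ}
    (hmn : m ≤ n) (hx : v x * π ^ m ≤ b) : v x * π ^ n ≤ b :=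
  (mul_le_mul_right (pow_le_pow_of_le_one zero_le hπ1.le hmn) (v x)).trans hx

variable [DecidableEq L]

section

variable {v : Valuation L Γ₀} {A B : L} (hA : v A ≤ 1) (hB : v B ≤ 1) (h2 : (2 : L) ≠ 0)

include hA hB h2

theorem zsmul_near {P : (crv A B).Point} (hP : Fm v P) {a : Γ₀} (ha : a < 1)
    (hPa : v (tt P) ≤ a) (n : ℤ) :
    Fm v (n • P) ∧ v (tt (n • P) - n * tt P) ≤ a ^ 5 := by
  have h1 := nsmul_near hA hB h2 hP ha hPa n.natAbs
  rcases Int.natAbs_eq n with h | h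
  · have h3 : n • P = n.natAbs • P := by
      conv_lhs => rw [h]
      rw [natCast_zsmul]
    have h5 : (n : L) = (n.natAbs : L) := by
      conv_lhs => rw [h]
      rw [Int.cast_natCast]
    rw [h3, h5]
    exact h1
  · have h3 : n • P = -(n.natAbs • P) := by
      conv_lhs => rw [h]
      rw [neg_smul, natCast_zsmul]
    have h5 : (n : L) = -(n.natAbs : L) := by
      conv_lhs => rw [h]
      rw [Int.cast_neg, Int.cast_natCast]
    have h6 : -tt (n.natAbs • P) - -(n.natAbs : L) * tt P =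
        -(tt (n.natAbs • P) - (n.natAbs : L) * tt P) := by ring
    rw [h3, h5, tt_neg, h6, Valuation.map_neg]
    exact ⟨fm_neg h1.1, h1.2⟩

theorem zsmul_le {P : (crv A B).Point} (hP : Fm v P) {a : Γ₀} (ha : a < 1)
    (hPa : v (tt P) ≤ a) (n : ℤ) : v (tt (n • P)) ≤ a := by
  have h1 := (zsmul_near hA hB h2 hP ha hPa n).2
  have h5 : a ^ 5 ≤ a := by
    calc a ^ 5 ≤ a ^ 1 := pow_le_pow_of_le_one zero_le ha.le (by norm_num)
      _ = a := pow_one a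
  have h3 : tt (n • P) = (tt (n • P) - n * tt P) + n * tt P := by ring
  rw [h3]
  refine v_le_of (h1.trans h5) ?_
  rw [map_mul]
  exact (mul_le_of_le_one_left' (v_int v n)).trans hPa

variable {π : Γ₀} (hπ0 : 0 < π) (hπ1 : π < 1) (φ : (crv A B).Point →+ (crv A B).Point) (θ : L)
  (M c : ℕ) (hE : ∀ Q : (crv A B).Point, Fm v Q → v (tt Q) ≤ π ^ M → Fm v (φ Q) ∧
    v (tt (φ Q) - θ * tt Q) * π ^ M ≤ v (tt Q) ^ 3) (hθ : v θ * π ^ c ≤ 1)

include hπ0 hπ1 hE hθ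

theorem phi_le {Q : (crv A B).Point} (hQ : Fm v Q) (hQ1 : v (tt Q) ≤ π ^ (M + c + 1)) :
    Fm v (φ Q) ∧ v (tt (φ Q) - θ * tt Q) * π ^ M ≤ v (tt Q) ^ 3 ∧
      v (tt (φ Q)) * π ^ c ≤ v (tt Q) := by
  have h1 : v (tt Q) ≤ π ^ M := hQ1.trans (pow_le_pow_of_le_one zero_le hπ1.le (by omega))
  obtain ⟨h3, h4⟩ := hE Q hQ h1
  refine ⟨h3, h4, ?_⟩
  have hx1 : v (tt Q) ≤ 1 := (tt_lt hA hB hQ).le
  have h5 : v (tt (φ Q) - θ * tt Q) ≤ v (tt Q) := by
    have h6 : v (tt Q) ^ 3 ≤ v (tt Q) * π ^ M := by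
      calc v (tt Q) ^ 3 = v (tt Q) * (v (tt Q) * v (tt Q)) := by rw [pow_succ, pow_two, mul_comm]
        _ ≤ v (tt Q) * (π ^ M * 1) := by gcongr
        _ = v (tt Q) * π ^ M := by rw [mul_one]
    exact le_of_mul_le_mul_right (h4.trans h6) (pow_pos hπ0 M)
  have h7 : tt (φ Q) = (tt (φ Q) - θ * tt Q) + θ * tt Q := by ring
  rw [h7]
  apply err_add
  · calc v (tt (φ Q) - θ * tt Q) * π ^ c ≤ v (tt Q) * 1 := by
          gcongr
          exact pow_le_one₀ zero_le hπ1.le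
      _ = v (tt Q) := mul_one _
  · calc v (θ * tt Q) * π ^ c = (v θ * π ^ c) * v (tt Q) := by rw [map_mul]; ac_rfl
      _ ≤ 1 * v (tt Q) := by gcongr
      _ = v (tt Q) := one_mul _

theorem lin_near {Q : (crv A B).Point} (hQ : Fm v Q) (hQ1 : v (tt Q) ≤ π ^ (M + c + 1))
    (l k : ℤ) : Fm v (l • Q + k • φ Q) ∧
      v (tt (l • Q + k • φ Q) - ((l : L) + k * θ) * tt Q) * π ^ (M + 5 * c) ≤ v (tt Q) ^ 3 := by
  obtain ⟨h3, h4, h5⟩ := phi_le hA hB h2 hπ0 hπ1 φ θ M c hE hθ hQ hQ1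
  have hx1 : v (tt Q) ≤ 1 := (tt_lt hA hB hQ).le
  have hc0 : 0 < π ^ c := pow_pos hπ0 c
  obtain ⟨α, hα⟩ : ∃ α : Γ₀, α * π ^ c = v (tt Q) :=
    ⟨v (tt Q) * (π ^ c)⁻¹, by rw [mul_assoc, inv_mul_cancel₀ hc0.ne', mul_one]⟩
  have hα1 : α < 1 := by
    have h6 : α * π ^ c ≤ π * π ^ c := by
      rw [hα, ← pow_succ']
      exact hQ1.trans (pow_le_pow_of_le_one zero_le hπ1.le (by omega))
    exact (le_of_mul_le_mul_right h6 hc0).trans_lt hπ1
  have hQα : v (tt Q) ≤ α := by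
    rw [← hα]
    exact mul_le_of_le_one_right' (pow_le_one₀ zero_le hπ1.le)
  have hφα : v (tt (φ Q)) ≤ α := by
    rw [← hα] at h5
    exact le_of_mul_le_mul_right h5 hc0
  have h7 := zsmul_near hA hB h2 hQ hα1 hQα l
  have h8 := zsmul_near hA hB h2 h3 hα1 hφα k
  have h9 := add_near hA hB h2 _ _ h7.1 h8.1 hα1 (zsmul_le hA hB h2 hQ hα1 hQα l)
    (zsmul_le hA hB h2 h3 hα1 hφα k)
  refine ⟨h9.1, ?_⟩
  have h10 : tt (l • Q + k • φ Q) - ((l : L) + k * θ) * tt Q =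
      (tt (l • Q + k • φ Q) - (tt (l • Q) + tt (k • φ Q))) + ((tt (l • Q) - l * tt Q) +
        ((tt (k • φ Q) - k * tt (φ Q)) + k * (tt (φ Q) - θ * tt Q))) := by ring
  have h11 : ∀ z : L, v z ≤ α ^ 5 → v z * π ^ (M + 5 * c) ≤ v (tt Q) ^ 3 := by
    intro z hz
    apply err_mono hπ1 (show 5 * c ≤ M + 5 * c by omega)
    calc v z * π ^ (5 * c) ≤ α ^ 5 * π ^ (5 * c) := by gcongr
      _ = (α * π ^ c) ^ 5 := by rw [mul_pow, ← pow_mul, mul_comm 5 c]
      _ = v (tt Q) ^ 5 := by rw [hα]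
      _ ≤ v (tt Q) ^ 3 := pow_le_pow_of_le_one zero_le hx1 (by norm_num)
  rw [h10]
  refine err_add (h11 _ h9.2) (err_add (h11 _ h7.2) (err_add (h11 _ h8.2) ?_))
  apply err_mono hπ1 (show M ≤ M + 5 * c by omega)
  rw [map_mul]
  calc v (k : L) * v (tt (φ Q) - θ * tt Q) * π ^ M =
      v (k : L) * (v (tt (φ Q) - θ * tt Q) * π ^ M) := mul_assoc _ _ _
    _ ≤ 1 * v (tt Q) ^ 3 := mul_le_mul' (v_int v k) h4
    _ = v (tt Q) ^ 3 := one_mul _

theorem quad_near {a b : ℤ} (hab : ∀ P, φ (φ P) = a • φ P + b • P) {Q : (crv A B).Point}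
    (hQ : Fm v Q) (hQ1 : v (tt Q) ≤ π ^ (M + c + 1)) (hQ0 : Q ≠ 0) :
    v (θ ^ 2 - (a * θ + b)) * π ^ (M + 5 * c) ≤ v (tt Q) ^ 2 := by
  obtain ⟨h3, h4, h5⟩ := phi_le hA hB h2 hπ0 hπ1 φ θ M c hE hθ hQ hQ1
  have hx0 : 0 < v (tt Q) := zero_lt_iff.2 ((map_ne_zero v).2 (tt_ne hA hB hQ hQ0))
  have hc0 : 0 < π ^ c := pow_pos hπ0 c
  have h6 : v (tt (φ Q)) ≤ π ^ M := by
    have h7 : v (tt (φ Q)) * π ^ c ≤ π ^ M * π ^ c := by
      rw [← pow_add]
      exact h5.trans (hQ1.trans (pow_le_pow_of_le_one zero_le hπ1.le (by omega)))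
    exact le_of_mul_le_mul_right h7 hc0
  have h8 := (hE _ h3 h6).2
  have h9 := (lin_near hA hB h2 hπ0 hπ1 φ θ M c hE hθ hQ hQ1 b a).2
  have h10 : b • Q + a • φ Q = φ (φ Q) := by rw [hab, add_comm]
  rw [h10] at h9
  have h11 : (θ ^ 2 - (a * θ + b)) * tt Q = -(tt (φ (φ Q)) - θ * tt (φ Q)) +
      (-(θ * (tt (φ Q) - θ * tt Q)) + (tt (φ (φ Q)) - ((b : L) + a * θ) * tt Q)) := by ring
  have h12 : v ((θ ^ 2 - (a * θ + b)) * tt Q) * π ^ (M + 5 * c) ≤ v (tt Q) ^ 3 := by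
    rw [h11]
    refine err_add (err_neg ?_) (err_add (err_neg ?_) h9)
    · apply err_mono hπ1 (show M + c * 3 ≤ M + 5 * c by omega)
      rw [pow_add, ← mul_assoc, pow_mul]
      calc v (tt (φ (φ Q)) - θ * tt (φ Q)) * π ^ M * (π ^ c) ^ 3 ≤
          v (tt (φ Q)) ^ 3 * (π ^ c) ^ 3 := mul_le_mul_left h8 _
        _ = (v (tt (φ Q)) * π ^ c) ^ 3 := (mul_pow _ _ _).symm
        _ ≤ v (tt Q) ^ 3 := pow_le_pow_left₀ zero_le h5 3
    · apply err_mono hπ1 (show M + c ≤ M + 5 * c by omega)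
      rw [map_mul, pow_add]
      calc v θ * v (tt (φ Q) - θ * tt Q) * (π ^ M * π ^ c) =
          (v θ * π ^ c) * (v (tt (φ Q) - θ * tt Q) * π ^ M) := by ac_rfl
        _ ≤ 1 * v (tt Q) ^ 3 := mul_le_mul' hθ h4
        _ = v (tt Q) ^ 3 := one_mul _
  rw [map_mul] at h12
  have h13 : v (θ ^ 2 - (a * θ + b)) * π ^ (M + 5 * c) * v (tt Q) ≤ v (tt Q) ^ 2 * v (tt Q) := by
    rw [← pow_succ]
    calc v (θ ^ 2 - (a * θ + b)) * π ^ (M + 5 * c) * v (tt Q) =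
        v (θ ^ 2 - (a * θ + b)) * v (tt Q) * π ^ (M + 5 * c) := by ac_rfl
      _ ≤ v (tt Q) ^ 3 := h12
  exact le_of_mul_le_mul_right h13 hx0

theorem lin_val {Q : (crv A B).Point} (hQ : Fm v Q) (hQ0 : Q ≠ 0) (l k : ℤ) (j m : ℕ)
    (hj : v ((l : L) + k * θ) ^ 2 = π ^ j) (hm : M + c + 1 ≤ m) (hm2 : M + 5 * c + j + 1 ≤ m)
    (hQ1 : v (tt Q) ≤ π ^ m) :
    Fm v (l • Q + k • φ Q) ∧ v (tt (l • Q + k • φ Q)) = v ((l : L) + k * θ) * v (tt Q) := by
  have h1 := lin_near hA hB h2 hπ0 hπ1 φ θ M c hE hθ hQ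
    (hQ1.trans (pow_le_pow_of_le_one zero_le hπ1.le hm)) l k
  refine ⟨h1.1, ?_⟩
  have hx0 : 0 < v (tt Q) := zero_lt_iff.2 ((map_ne_zero v).2 (tt_ne hA hB hQ hQ0))
  have h3 : tt (l • Q + k • φ Q) = ((l : L) + k * θ) * tt Q +
    (tt (l • Q + k • φ Q) - ((l : L) + k * θ) * tt Q) := by ring
  have h4 : v (tt (l • Q + k • φ Q) - ((l : L) + k * θ) * tt Q) <
      v (((l : L) + k * θ) * tt Q) := by
    by_contra hcon
    push Not at hcon
    have h5 : v (((l : L) + k * θ) * tt Q) * π ^ (M + 5 * c) ≤ v (tt Q) ^ 3 :=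
      (mul_le_mul_left hcon _).trans h1.2
    rw [map_mul] at h5
    have h6 : v ((l : L) + k * θ) * π ^ (M + 5 * c) ≤ v (tt Q) ^ 2 := by
      have h13 : v ((l : L) + k * θ) * π ^ (M + 5 * c) * v (tt Q) ≤
          v (tt Q) ^ 2 * v (tt Q) := by
        rw [← pow_succ]
        calc v ((l : L) + k * θ) * π ^ (M + 5 * c) * v (tt Q) =
            v ((l : L) + k * θ) * v (tt Q) * π ^ (M + 5 * c) := by ac_rfl
          _ ≤ v (tt Q) ^ 3 := h5
      exact le_of_mul_le_mul_right h13 hx0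
    have h7 : v ((l : L) + k * θ) * π ^ (M + 5 * c) ≤ π ^ (m * 2) :=
      h6.trans ((pow_le_pow_left₀ zero_le hQ1 2).trans (by rw [← pow_mul]))
    have h8 : π ^ (j + (M + 5 * c) * 2) ≤ π ^ (m * 2 * 2) := by
      rw [pow_add, ← hj, pow_mul, ← mul_pow, pow_mul π (m * 2) 2]
      exact pow_le_pow_left₀ zero_le h7 2
    have h9 : π ^ (m * 2 * 2) < π ^ (j + (M + 5 * c) * 2) :=
      pow_lt_pow_right_of_lt_one₀ hπ0 hπ1 (by omega)
    exact absurd h8 (not_le.2 h9)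
  rw [h3, Valuation.map_add_eq_of_lt_left _ h4, map_mul]

end

end gen

theorem smul_eq {G : Type*} [AddCommGroup G] (t q : ℕ) (x y : ℤ) (X Y : G) :
    ((t : ℤ) * x) • (q • X) + ((t : ℤ) * y) • (q • Y) = q • (t • (x • X + y • Y)) := by
  simp only [← natCast_zsmul, zsmul_add, ← mul_smul]
  congr 2 <;> ring

/-- bounds for the coefficients of a polynomial -/
theorem coeff_bd (h3 : S_ALGV) (V : ValuationSubring ℂ) (p : ℕ) (hp : p.Prime)
    (hpV : (p : ℂ) ∈ V.nonunits) (hπ1 : V.valuation (p : ℂ) < 1) (P : Polynomial ℂ)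
    (hP : ∀ i, IsAlgebraic ℚ (P.coeff i)) :
    ∃ M : ℕ, ∀ i, P.coeff i ≠ 0 → V.valuation (p : ℂ) ^ M ≤ V.valuation (P.coeff i) ∧
      V.valuation (P.coeff i) * V.valuation (p : ℂ) ^ M ≤ 1 := by
  have h1 : ∀ i, ∃ M : ℕ, P.coeff i ≠ 0 → V.valuation (p : ℂ) ^ M ≤ V.valuation (P.coeff i) ∧
      V.valuation (P.coeff i) * V.valuation (p : ℂ) ^ M ≤ 1 := by
    intro i
    by_cases h : P.coeff i = 0
    · exact ⟨0, fun h' => absurd h h'⟩
    · obtain ⟨M, hM⟩ := h3 V p hp hpV _ (hP i) h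
      exact ⟨M, fun _ => hM⟩
  choose f hf using h1
  refine ⟨∑ i ∈ Finset.range (P.natDegree + 1), f i, ?_⟩
  intro i hi
  have h2 : f i ≤ ∑ i ∈ Finset.range (P.natDegree + 1), f i :=
    Finset.single_le_sum (fun _ _ => Nat.zero_le _)
      (Finset.mem_range.2 (Nat.lt_succ_of_le (Polynomial.le_natDegree_of_ne_zero hi)))
  have h4 : V.valuation (p : ℂ) ^ (∑ i ∈ Finset.range (P.natDegree + 1), f i) ≤
      V.valuation (p : ℂ) ^ f i := pow_le_pow_of_le_one zero_le hπ1.le h2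
  exact ⟨h4.trans (hf i hi).1, (mul_le_mul_right h4 _).trans (hf i hi).2⟩

theorem cmr (h1 : S_ENDO) (h2 : S_QUAD) (h3 : S_ALGV) : S_CMR := by
  intro V p hp hpV A B hAV hBV φ F G H K hR halg a b hab hdisc n P J β hβ e s hs hJ hJe l k hlk hne
    t ht hrel
  set v := V.valuation with hv
  have hA : v A ≤ 1 := (V.valuation_le_one_iff A).2 hAV
  have hB : v B ≤ 1 := (V.valuation_le_one_iff B).2 hBV
  have hπ1 : v (p : ℂ) < 1 := V.mem_nonunits_iff.1 hpV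
  have hp0 : (p : ℂ) ≠ 0 := Nat.cast_ne_zero.2 hp.ne_zero
  have hπ0 : 0 < v (p : ℂ) := zero_lt_iff.2 ((map_ne_zero v).2 hp0)
  have h20 : (2 : ℂ) ≠ 0 := two_ne_zero
  obtain ⟨MF, hMF⟩ := coeff_bd h3 V p hp hpV hπ1 F (halg F (by simp))
  obtain ⟨MG, hMG⟩ := coeff_bd h3 V p hp hpV hπ1 G (halg G (by simp))
  obtain ⟨MH, hMH⟩ := coeff_bd h3 V p hp hpV hπ1 H (halg H (by simp))
  obtain ⟨MK, hMK⟩ := coeff_bd h3 V p hp hpV hπ1 K (halg K (by simp))
  have hmono : ∀ m m' : ℕ, m ≤ m' → v (p : ℂ) ^ m' ≤ v (p : ℂ) ^ m := fun m m' h =>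
    pow_le_pow_of_le_one zero_le hπ1.le h
  obtain ⟨M, hE⟩ := h1 ℂ V.ValueGroup v (v (p : ℂ)) hπ0 hπ1 h20 A B hA hB φ F G H K hR
    ⟨MF + MG + MH + MK, by
      intro P hP i hi
      simp only [Set.mem_insert_iff, Set.mem_singleton_iff] at hP
      rcases hP with rfl | rfl | rfl | rfl
      · exact ⟨(hmono _ _ (by omega)).trans (hMF i hi).1,
          (mul_le_mul_right (hmono _ _ (by omega)) _).trans (hMF i hi).2⟩
      · exact ⟨(hmono _ _ (by omega)).trans (hMG i hi).1,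
          (mul_le_mul_right (hmono _ _ (by omega)) _).trans (hMG i hi).2⟩
      · exact ⟨(hmono _ _ (by omega)).trans (hMH i hi).1,
          (mul_le_mul_right (hmono _ _ (by omega)) _).trans (hMH i hi).2⟩
      · exact ⟨(hmono _ _ (by omega)).trans (hMK i hi).1,
          (mul_le_mul_right (hmono _ _ (by omega)) _).trans (hMK i hi).2⟩⟩
  set θ := F.leadingCoeff * K.leadingCoeff / (G.leadingCoeff * H.leadingCoeff) with hθd
  have hF0 : F ≠ 0 := by
    intro h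
    have := hR.degF
    rw [h, Polynomial.natDegree_zero] at this
    omega
  have hθ0 : θ ≠ 0 := by
    apply div_ne_zero
    · exact mul_ne_zero (Polynomial.leadingCoeff_ne_zero.2 hF0)
        (Polynomial.leadingCoeff_ne_zero.2 hR.K0)
    · exact mul_ne_zero (Polynomial.leadingCoeff_ne_zero.2 hR.G0)
        (Polynomial.leadingCoeff_ne_zero.2 hR.H0)
  have hθa : IsAlgebraic ℚ θ := by
    rw [hθd, div_eq_mul_inv]
    exact ((halg F (by simp) _).mul (halg K (by simp) _)).mul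
      ((halg G (by simp) _).mul (halg H (by simp) _)).inv
  obtain ⟨c, -, hc⟩ := h3 V p hp hpV θ hθa hθ0
  -- deep points
  have hpow : ∀ m : ℕ, v ((p ^ m : ℕ) : ℂ) = v (p : ℂ) ^ m := by
    intro m
    rw [Nat.cast_pow, map_pow]
  have hdeep : ∀ i ∈ J, ∀ m : ℕ, Fm v (p ^ m • P i) ∧
      v (tt (p ^ m • P i)) = v (p : ℂ) ^ m * v (tt (P i)) ∧ v (tt (p ^ m • P i)) ≤ v (p : ℂ) ^ m ∧
      p ^ m • P i ≠ 0 := by
    intro i hi m
    obtain ⟨c1, c2, c3, c4⟩ := hJ i hi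
    obtain ⟨d1, d2⟩ := nsmul_val hA hB h20 hp hπ0 hπ1 c2 c1 c3 (n := p ^ m)
      (pow_ne_zero m hp.ne_zero)
    rw [hpow] at d2
    refine ⟨d1, d2, ?_, ?_⟩
    · rw [d2]
      exact mul_le_of_le_one_right' (tt_lt hA hB c2).le
    · intro h0
      rw [h0] at d2
      change v (0 : ℂ) = _ at d2
      rw [map_zero] at d2
      have hpos : 0 < v (tt (P i)) := zero_lt_iff.2 ((map_ne_zero v).2 (tt_ne hA hB c2 c1))
      exact (mul_pos (pow_pos hπ0 m) hpos).ne d2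
  -- the set of indices
  set J' := Finset.univ.filter (fun i : Fin n => l i ≠ 0 ∨ k i ≠ 0) with hJ'
  have hJJ : ∀ i ∈ J', i ∈ J := by
    intro i hi
    by_contra h
    obtain ⟨c1, c2⟩ := hlk i h
    rw [hJ', Finset.mem_filter] at hi
    rcases hi.2 with h' | h'
    · exact h' c1
    · exact h' c2
  obtain ⟨i0, hi0⟩ := hne
  have hi0' : i0 ∈ J' := by rw [hJ', Finset.mem_filter]; exact ⟨Finset.mem_univ _, hi0⟩
  -- the quadratic equation
  have hquad : θ ^ 2 = a * θ + b := by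
    by_contra hcon
    have hz : θ ^ 2 - (a * θ + b) ≠ 0 := sub_ne_zero.2 hcon
    have hza : IsAlgebraic ℚ (θ ^ 2 - (a * θ + b)) := by
      have ha : IsAlgebraic ℚ (a : ℂ) := isAlgebraic_intCast a
      have hb : IsAlgebraic ℚ (b : ℂ) := isAlgebraic_intCast b
      exact (hθa.pow 2).sub ((ha.mul hθa).add hb)
    obtain ⟨c', hc', -⟩ := h3 V p hp hpV _ hza hz
    obtain ⟨d1, d2, d3, d4⟩ := hdeep i0 (hJJ i0 hi0') (M + 5 * c + c' + 1)
    have h5 := quad_near hA hB h20 hπ0 hπ1 φ θ M c hE hc hab d1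
      (d3.trans (hmono _ _ (by omega))) d4
    have h6 : v (p : ℂ) ^ (c' + (M + 5 * c)) ≤ v (p : ℂ) ^ ((M + 5 * c + c' + 1) * 2) := by
      rw [pow_add, pow_mul]
      exact (mul_le_mul_left hc' _).trans (h5.trans (pow_le_pow_left₀ zero_le d3 2))
    have h7 : v (p : ℂ) ^ ((M + 5 * c + c' + 1) * 2) < v (p : ℂ) ^ (c' + (M + 5 * c)) :=
      pow_lt_pow_right_of_lt_one₀ hπ0 hπ1 (by omega)
    exact absurd h6 (not_le.2 h7)
  -- values of the quadratic numbers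
  have hval : ∀ i : Fin n, ∃ j : ℕ, i ∈ J' →
      v ((((t : ℤ) * l i : ℤ) : ℂ) + (((t : ℤ) * k i : ℤ) : ℂ) * θ) ^ 2 = v (p : ℂ) ^ j := by
    intro i
    by_cases hi : i ∈ J'
    · rw [hJ', Finset.mem_filter] at hi
      have ht0 : (t : ℤ) ≠ 0 := by exact_mod_cast ht.ne'
      obtain ⟨-, j, hj⟩ := h2 ℂ V.ValueGroup v p hp hπ1 θ a b hquad hdisc ((t : ℤ) * l i)
        ((t : ℤ) * k i) (by
          rcases hi.2 with h' | h'
          · exact Or.inl (mul_ne_zero ht0 h')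
          · exact Or.inr (mul_ne_zero ht0 h'))
      exact ⟨j, fun _ => hj⟩
    · exact ⟨0, fun h => absurd h hi⟩
  choose j hj using hval
  set m := M + 5 * c + (∑ i, j i) + 1 with hm
  have hjm : ∀ i, j i ≤ ∑ i, j i := fun i =>
    Finset.single_le_sum (fun _ _ => Nat.zero_le _) (Finset.mem_univ i)
  set R : Fin n → (crv A B).Point := fun i =>
    ((t : ℤ) * l i) • (p ^ m • P i) + ((t : ℤ) * k i) • φ (p ^ m • P i) with hRd
  have hRv : ∀ i ∈ J', Fm v (R i) ∧ v (tt (R i)) =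
      v ((((t : ℤ) * l i : ℤ) : ℂ) + (((t : ℤ) * k i : ℤ) : ℂ) * θ) *
        (v (p : ℂ) ^ m * v (tt (P i))) := by
    intro i hi
    obtain ⟨d1, d2, d3, d4⟩ := hdeep i (hJJ i hi) m
    have h5 := lin_val hA hB h20 hπ0 hπ1 φ θ M c hE hc d1 d4 ((t : ℤ) * l i) ((t : ℤ) * k i)
      (j i) m (hj i hi) (by omega) (by have := hjm i; omega) d3
    rw [← d2]
    exact h5
  have hRne : ∀ i ∈ J', v (tt (R i)) ≠ 0 := by
    intro i hi
    rw [(hRv i hi).2]
    obtain ⟨c1, c2, c3, c4⟩ := hJ i (hJJ i hi)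
    refine mul_ne_zero ?_ (mul_ne_zero (pow_pos hπ0 m).ne' ((map_ne_zero v).2 (tt_ne hA hB c2 c1)))
    intro h0
    have := hj i hi
    rw [h0, zero_pow two_ne_zero] at this
    exact (pow_pos hπ0 (j i)).ne this
  have hRp : ∀ i ∈ J', v (tt (R i)) ^ (2 * β) =
      v (p : ℂ) ^ (β * j i + e i) * (s * v (p : ℂ) ^ (m * (2 * β))) := by
    intro i hi
    obtain ⟨c1, c2, c3, c4⟩ := hJ i (hJJ i hi)
    rw [(hRv i hi).2, mul_pow, mul_pow, c4, pow_mul, hj i hi, ← pow_mul, ← pow_mul, pow_add,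
      mul_comm (j i) β]
    generalize v (p : ℂ) ^ (β * j i) = z1
    generalize v (p : ℂ) ^ e i = z2
    generalize v (p : ℂ) ^ (m * (2 * β)) = z3
    ac_rfl
  have hRd2 : ∀ i ∈ J', ∀ i' ∈ J', i ≠ i' → v (tt (R i)) ≠ v (tt (R i')) := by
    intro i hi i' hi' hii h
    have h5 := hRp i hi
    rw [h, hRp i' hi'] at h5
    have h6 : (s * v (p : ℂ) ^ (m * (2 * β))) ≠ 0 := (mul_pos hs (pow_pos hπ0 _)).ne'
    have h7 := mul_right_cancel₀ h6 h5
    have h8 : β * j i' + e i' = β * j i + e i := by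
      rcases lt_trichotomy (β * j i' + e i') (β * j i + e i) with h8 | h8 | h8
      · exact absurd h7 (pow_lt_pow_right_of_lt_one₀ hπ0 hπ1 h8).ne'
      · exact h8
      · exact absurd h7 (pow_lt_pow_right_of_lt_one₀ hπ0 hπ1 h8).ne
    apply hJe i (hJJ i hi) i' (hJJ i' hi') hii
    have h9 : β * j i' + e i' ≡ β * j i + e i [MOD β] := by rw [h8]
    have h10 : e i' ≡ e i [MOD β] := by
      have e1 : β * j i' + e i' ≡ e i' [MOD β] := by
        unfold Nat.ModEq; rw [Nat.mul_add_mod]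
      have e2 : β * j i + e i ≡ e i [MOD β] := by
        unfold Nat.ModEq; rw [Nat.mul_add_mod]
      exact (e1.symm.trans h9).trans e2
    exact h10.symm
  obtain ⟨-, i1, hi1, h5, -⟩ := sum_val hA hB h20 J' R (fun i hi => (hRv i hi).1) hRd2 ⟨i0, hi0'⟩
  have hsum : ∑ i ∈ J', R i = 0 := by
    have h6 : ∑ i ∈ J', R i = ∑ i, R i := by
      apply Finset.sum_subset (Finset.subset_univ _)
      intro i _ hi
      have h7 : l i = 0 ∧ k i = 0 := by
        by_contra h8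
        apply hi
        rw [hJ', Finset.mem_filter]
        refine ⟨Finset.mem_univ _, ?_⟩
        by_contra h9
        push Not at h9
        exact h8 h9
      rw [hRd]
      change ((t : ℤ) * l i) • (p ^ m • P i) + ((t : ℤ) * k i) • φ (p ^ m • P i) = 0
      rw [h7.1, h7.2, mul_zero, zero_zsmul, zero_zsmul, add_zero]
    have h8 : ∀ i, R i = p ^ m • (t • (l i • P i + k i • φ (P i))) := by
      intro i
      change ((t : ℤ) * l i) • (p ^ m • P i) + ((t : ℤ) * k i) • φ (p ^ m • P i) = _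
      rw [map_nsmul]
      exact smul_eq t (p ^ m) (l i) (k i) (P i) (φ (P i))
    rw [h6, Finset.sum_congr rfl fun i _ => h8 i, ← Finset.smul_sum, ← Finset.smul_sum, hrel,
      smul_zero]
  rw [hsum] at h5
  change v (0 : ℂ) = _ at h5
  rw [map_zero] at h5
  exact hRne i1 hi1 h5.symm

end Pool.Agent.W216.LF
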